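import Pool.Agent.Helper79.CF.Spec

/-! Swarm CF (MP_a17b09_nt), part L2. -/

set_option autoImplicit false

namespace Pool.Agent.Helper11.CF.L2

open Finset Filter Topology MeasureTheory
open Pool.Agent.Helper79.CF
open Pool.Agent.Q138.GS (th Sav Sm thw neg_thw thw_le sm_pol UN)

theorem sm_of_pol {P : ℕ → ℕ} {Q : Polynomial ℝ} (h : IsPol P Q) :
    Sm (Q.natDegree : ℝ) fun n => (P n : ℝ) := by
  obtain ⟨hd, hl, he⟩ := h
  obtain ⟨hc, φ, hφ, n0, hn0⟩ := sm_pol hd hl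
  obtain ⟨n1, hn1⟩ := eventually_atTop.1 he
  refine ⟨hc, φ, hφ, max n0 n1, fun n hn => ?_⟩
  have h1 := hn0 n ((le_max_left _ _).trans hn)
  have h2 := hn1 n ((le_max_right _ _).trans hn)
  simp only at h1 h2 ⊢
  rw [h2]
  exact h1

theorem subst_le (G : ℝ → ENNReal) :
    ∫⁻ t in Set.Icc (0 : ℝ) 1, G t ≤
      ENNReal.ofReal (Real.exp 1) * ∫⁻ u in Set.Icc (0 : ℝ) 1, G (Real.exp u - 1) := by
  have hsub : Set.Icc (0 : ℝ) 1 ⊆ (fun u : ℝ => Real.exp u - 1) '' Set.Icc (0 : ℝ) 1 := by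
    intro t ht
    refine ⟨Real.log (1 + t), ⟨?_, ?_⟩, ?_⟩
    · exact Real.log_nonneg (by linarith [ht.1])
    · have h1 : Real.log (1 + t) ≤ (1 + t) - 1 := Real.log_le_sub_one_of_pos (by linarith [ht.1])
      linarith [ht.2]
    · simp only
      rw [Real.exp_log (by linarith [ht.1])]
      ring
  have hder : ∀ x ∈ Set.Icc (0 : ℝ) 1,
      HasDerivWithinAt (fun u : ℝ => Real.exp u - 1) (Real.exp x) (Set.Icc (0 : ℝ) 1) x := by
    intro x _
    exact ((Real.hasDerivAt_exp x).sub_const 1).hasDerivWithinAt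
  have hinj : Set.InjOn (fun u : ℝ => Real.exp u - 1) (Set.Icc (0 : ℝ) 1) := by
    intro a _ b _ hab
    simp only at hab
    exact Real.exp_injective (by linarith)
  calc ∫⁻ t in Set.Icc (0 : ℝ) 1, G t
      ≤ ∫⁻ t in (fun u : ℝ => Real.exp u - 1) '' Set.Icc (0 : ℝ) 1, G t := lintegral_mono_set hsub
    _ = ∫⁻ u in Set.Icc (0 : ℝ) 1, ENNReal.ofReal |Real.exp u| * G (Real.exp u - 1) :=
        lintegral_image_eq_lintegral_abs_deriv_mul measurableSet_Icc hder hinj G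
    _ ≤ ∫⁻ u in Set.Icc (0 : ℝ) 1, ENNReal.ofReal (Real.exp 1) * G (Real.exp u - 1) := by
        refine setLIntegral_mono' measurableSet_Icc fun u hu => ?_
        gcongr
        rw [abs_of_pos (Real.exp_pos u)]
        exact Real.exp_le_exp.2 hu.2
    _ = ENNReal.ofReal (Real.exp 1) * ∫⁻ u in Set.Icc (0 : ℝ) 1, G (Real.exp u - 1) :=
        lintegral_const_mul' _ _ ENNReal.ofReal_ne_top

theorem main : S_L2 := by
  intro P Q hPQ K
  obtain ⟨C, hC, h⟩ := (sm_of_pol hPQ).un thw thw_le neg_thw 0 0 K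
  refine ⟨Real.exp 1 * C, by positivity, fun N hN s => ?_⟩
  have h1 := h N hN (fun n => if s n = true then (1 : ℂ) else 0) (fun n => by
    split_ifs <;> simp)
  have e : ∀ u : ℝ, SS P s (Real.exp u - 1) N =
      ∑ n ∈ Icc 1 N, (if s n = true then (1 : ℂ) else 0) *
        thw ⌊Real.exp (0 + u) * (P n : ℝ) + 0⌋₊ := by
    intro u
    unfold SS thw
    refine sum_congr rfl fun n _ => ?_
    rw [zero_add, add_zero, show (1 : ℝ) + (Real.exp u - 1) = Real.exp u by ring]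
    ring
  calc ∫⁻ t in Set.Icc (0 : ℝ) 1, ‖SS P s t N‖ₑ ^ 2
      ≤ ENNReal.ofReal (Real.exp 1) *
          ∫⁻ u in Set.Icc (0 : ℝ) 1, ‖SS P s (Real.exp u - 1) N‖ₑ ^ 2 :=
        subst_le fun t => ‖SS P s t N‖ₑ ^ 2
    _ ≤ ENNReal.ofReal (Real.exp 1) * ENNReal.ofReal (C * (N : ℝ) ^ 2 / (Real.log N) ^ K) := by
        simp only [e]
        gcongr
    _ = ENNReal.ofReal (Real.exp 1 * C * (N : ℝ) ^ 2 / (Real.log N) ^ K) := by
        rw [← ENNReal.ofReal_mul (Real.exp_pos 1).le]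
        congr 1
        ring

end Pool.Agent.Helper11.CF.L2
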